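import Pool.Agent.K1H77.SQ.NI

/-! Piece BTR of the project SQ (bad triples). -/

set_option autoImplicit false

namespace Pool.Agent.K1H77.SQ

open Finset Pool.Agent.K1H35.SH

theorem exists_enum {n s : ℕ} (Z : Finset (Fin n)) (hZ : Z.Nonempty) (hs : Z.card ≤ s) :
    ∃ z : Fin s → Fin n, (∀ i, z i ∈ Z) ∧ ∀ v ∈ Z, ∃ i, z i = v := by
  classical
  obtain ⟨z0, hz0⟩ := hZ
  refine ⟨fun i => if h : (i : ℕ) < Z.card then (Z.equivFin.symm ⟨i, h⟩ : Z).1 else z0, ?_, ?_⟩
  · intro i
    dsimp only
    split_ifs with h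
    · exact (Z.equivFin.symm ⟨i, h⟩).2
    · exact hz0
  · intro v hv
    refine ⟨⟨(Z.equivFin ⟨v, hv⟩ : Fin Z.card), lt_of_lt_of_le (Fin.isLt _) hs⟩, ?_⟩
    dsimp only
    rw [dif_pos (Fin.isLt _)]
    simp

theorem two_to_one {n : ℕ} (N : Finset (Sym2 (Fin n))) (A : Finset (Fin n × Fin n))
    (hA : ∀ p ∈ A, s(p.1, p.2) ∈ N) : A.card ≤ 2 * N.card := by
  classical
  have h1 := Finset.card_le_mul_card_image (f := fun p : Fin n × Fin n => s(p.1, p.2)) A 2 (by
    intro e he
    induction e using Sym2.inductionOn with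
    | _ a b =>
      have : A.filter (fun p : Fin n × Fin n => s(p.1, p.2) = s(a, b)) ⊆ {(a, b), (b, a)} := by
        intro p hp
        rw [Finset.mem_filter] at hp
        rw [Finset.mem_insert, Finset.mem_singleton]
        rcases Sym2.eq_iff.1 hp.2 with ⟨h1, h2⟩ | ⟨h1, h2⟩
        · left; exact Prod.ext h1 h2
        · right; exact Prod.ext h1 h2
      exact (Finset.card_le_card this).trans Finset.card_le_two)
  refine h1.trans (Nat.mul_le_mul_left _ (Finset.card_le_card ?_))
  intro e he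
  obtain ⟨p, hp, rfl⟩ := Finset.mem_image.1 he
  exact hA p hp

theorem t_BTR (hNI : S_NI) : S_BTR := by
  classical
  intro n d t c s Dm G H f Z ht hG hT hQ hZs hcod hcov
  rcases Z.eq_empty_or_nonempty with rfl | hZ
  · simp
  rw [mem_reg] at hG
  obtain ⟨z, hz, hzs⟩ := exists_enum Z hZ hZs
  -- the family of maps
  set el : Fin n → Fin d → Fin n := fun v a => (((nb G v).equivFinOfCardEq (hG v)).symm a).1
    with hel
  have el_mem : ∀ v a, el v a ∈ nb G v := fun v a =>
    (((nb G v).equivFinOfCardEq (hG v)).symm a).2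
  have el_inj : ∀ v, Function.Injective (el v) := fun v a b hab =>
    ((nb G v).equivFinOfCardEq (hG v)).symm.injective (Subtype.ext hab)
  have el_surj : ∀ v, ∀ x ∈ nb G v, ∃ a, el v a = x := by
    intro v x hx
    refine ⟨(nb G v).equivFinOfCardEq (hG v) ⟨x, hx⟩, ?_⟩
    rw [hel]
    simp
  set g : Fin s → Fin d → Fin n × Fin n := fun i a => (el (z i) a, f (z i) (el (z i) a)) with hg
  have hconf : Conf g G := by
    refine ⟨fun i => ⟨el_inj (z i), fun a b hab => ?_⟩, ?_⟩
    · apply el_inj (z i)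
      exact (hT (z i)).1 (el_mem _ _) (el_mem _ _) hab
    · intro i a b i' a' b' hab hab' he
      have h1 := (hT (z i)).2.2 _ (el_mem (z i) a) _ (el_mem (z i) b)
      have h2 := (hT (z i')).2.2 _ (el_mem (z i') a') _ (el_mem (z i') b')
      change G.Adj (el (z i) a) (el (z i) b) ↔ G.Adj (el (z i') a') (el (z i') b')
      rw [h1, h2, ← SimpleGraph.mem_edgeSet, ← SimpleGraph.mem_edgeSet]
      exact iff_of_eq (congrArg (· ∈ H.edgeSet) he)
  have hM := hQ g hconf
  -- the elements
  set P : Finset (Sym2 (Fin n)) := univ.filter fun e => ¬ e.IsDiag with hP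
  set dom : Fin n → Finset (Sym2 (Fin n)) := fun v => P.filter fun e => ∀ x ∈ e, x ∈ nb G v
    with hdom
  set F : Fin n → Sym2 (Fin n) → Sym2 (Fin n) := fun v => Sym2.map (f v) with hF
  have memP : ∀ x y : Fin n, s(x, y) ∈ P ↔ x ≠ y := by
    intro x y
    rw [hP, Finset.mem_filter, Sym2.mk_isDiag_iff]
    simp
  have memdom : ∀ v x y : Fin n, s(x, y) ∈ dom v ↔ x ≠ y ∧ x ∈ nb G v ∧ y ∈ nb G v := by
    intro v x y
    rw [hdom]
    simp only [Finset.mem_filter, memP, Sym2.mem_iff, forall_eq_or_imp, forall_eq]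
  have hni := hNI (Sym2 (Fin n)) (Fin n) P Z dom F
    (fun v _ => Finset.filter_subset _ _)
    (by
      intro v _ e he
      induction e using Sym2.inductionOn with
      | _ x y =>
        rw [memdom] at he
        rw [hF]
        simp only [Sym2.map_mk]
        rw [memP]
        intro h
        exact he.1 ((hT v).1 he.2.1 he.2.2 h))
    (by
      intro e he
      induction e using Sym2.inductionOn with
      | _ x y =>
        rw [memP] at he
        have h1 := (hcov x y he).1
        obtain ⟨v, hv⟩ := (Set.ncard_pos (Set.toFinite _)).1 (Nat.lt_of_lt_of_le Nat.zero_lt_one h1)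
        refine ⟨v, hv.1, ?_⟩
        rw [memdom, mem_nb, mem_nb]
        exact ⟨he, hv.2.1, hv.2.2⟩)
  set N : Finset (Sym2 (Fin n)) := P.filter fun e => ¬ ∀ i ∈ Z, ∀ j ∈ Z, e ∈ dom i → e ∈ dom j →
    F i e = F j e with hN
  have hNcard : N.card ≤ 2 * Dm := by
    have e1 : {e | e ∈ P ∧ ¬ ∀ i ∈ Z, ∀ j ∈ Z, e ∈ dom i → e ∈ dom j → F i e = F j e} =
        (N : Set (Sym2 (Fin n))) := by
      ext e
      rw [hN]
      simp
    rw [e1, Set.ncard_coe_finset] at hni
    refine hni.trans (Nat.mul_le_mul_left _ (le_trans ?_ hM))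
    apply Set.ncard_le_ncard _ (Set.toFinite _)
    rintro e ⟨he, i, hi, j, hj, e', he', hei, hne, hFF⟩
    induction e using Sym2.inductionOn with
    | _ x y =>
      induction e' using Sym2.inductionOn with
      | _ x' y' =>
        rw [memdom] at hei he'
        obtain ⟨i1, rfl⟩ := hzs i hi
        obtain ⟨j1, rfl⟩ := hzs j hj
        obtain ⟨a, rfl⟩ := el_surj _ _ hei.2.1
        obtain ⟨b, rfl⟩ := el_surj _ _ hei.2.2
        obtain ⟨a', rfl⟩ := el_surj _ _ he'.2.1
        obtain ⟨b', rfl⟩ := el_surj _ _ he'.2.2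
        refine ⟨i1, a, b, j1, a', b', ?_, ?_, rfl, ?_, hne⟩
        · rintro rfl; exact hei.1 rfl
        · rintro rfl; exact he'.1 rfl
        · exact hFF
  -- counting
  set cm : Fin n → Fin n → Finset (Fin n) := fun v w => nb G v ∩ nb G w with hcm
  set A : Fin n → Fin n → Finset (Fin n × Fin n) := fun v w =>
    (cm v w ×ˢ cm v w).filter fun p => p.1 ≠ p.2 ∧ s(p.1, p.2) ∈ N with hA
  have hlow : ∀ v ∈ Z, ∀ w ∈ Z, (t - 2) * bad G f v w ≤ (A v w).card := by
    intro v hv w hw
    set Bd : Finset (Fin n) := (nb G v ∩ nb G w).filter fun x => f v x ≠ f w x with hBd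
    have hbad : bad G f v w = Bd.card := by
      unfold bad
      rw [hBd]
    rw [hbad]
    by_cases hvw : v = w
    · subst hvw
      have : Bd = ∅ := by
        rw [hBd, Finset.filter_eq_empty_iff]
        intro x _ h
        exact h rfl
      rw [this, Finset.card_empty, mul_zero]
      exact Nat.zero_le _
    have hcard : t ≤ (cm v w).card := by
      have := hcod v w hvw
      unfold codeg at this
      rw [hcm]
      convert this
    have hmap : ∀ p ∈ A v w, p.1 ∈ cm v w := fun p hp =>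
      (Finset.mem_product.1 (Finset.mem_filter.1 hp).1).1
    have hsum : ∑ x ∈ Bd, (t - 2) ≤ ∑ x ∈ Bd, ((A v w).filter fun p => p.1 = x).card := by
      refine Finset.sum_le_sum fun x hx => ?_
      rw [hBd, Finset.mem_filter] at hx
      obtain ⟨hx1, hx2⟩ := hx
      have hxm := Finset.mem_inter.1 hx1
      set E : Finset (Fin n) := (cm v w).filter fun y => f w y = f v x with hE
      have hEc : E.card ≤ 1 := by
        rw [Finset.card_le_one]
        intro y hy y' hy'
        rw [hE, Finset.mem_filter, hcm, Finset.mem_inter] at hy hy'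
        exact (hT w).1 hy.1.2 hy'.1.2 (hy.2.trans hy'.2.symm)
      have himg : (((cm v w).erase x) \ E).image (fun y => (x, y)) ⊆
          (A v w).filter fun p => p.1 = x := by
        intro p hp
        rw [Finset.mem_image] at hp
        obtain ⟨y, hy, rfl⟩ := hp
        rw [Finset.mem_sdiff, Finset.mem_erase] at hy
        obtain ⟨⟨hyx, hyc⟩, hyE⟩ := hy
        have hym := Finset.mem_inter.1 hyc
        rw [Finset.mem_filter, hA, Finset.mem_filter, Finset.mem_product]
        refine ⟨⟨⟨hx1, hyc⟩, hyx.symm, ?_⟩, rfl⟩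
        rw [hN, Finset.mem_filter]
        refine ⟨(memP x y).2 hyx.symm, fun hall => ?_⟩
        have h1 := hall v hv w hw ((memdom v x y).2 ⟨hyx.symm, hxm.1, hym.1⟩)
          ((memdom w x y).2 ⟨hyx.symm, hxm.2, hym.2⟩)
        rw [hF] at h1
        simp only [Sym2.map_mk] at h1
        rcases Sym2.eq_iff.1 h1 with ⟨h2, _⟩ | ⟨h2, _⟩
        · exact hx2 h2
        · apply hyE
          rw [hE, Finset.mem_filter]
          exact ⟨hyc, h2.symm⟩
      have h3 := Finset.card_le_card himg
      rw [Finset.card_image_of_injective _ (fun y y' h => (Prod.ext_iff.1 h).2)] at h3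
      have h4 := Finset.le_card_sdiff E ((cm v w).erase x)
      have h5 : ((cm v w).erase x).card = (cm v w).card - 1 := Finset.card_erase_of_mem hx1
      omega
    rw [Finset.sum_const, smul_eq_mul] at hsum
    rw [mul_comm]
    refine hsum.trans ?_
    rw [← Finset.card_biUnion]
    · apply Finset.card_le_card
      intro p hp
      rw [Finset.mem_biUnion] at hp
      obtain ⟨x, _, hx⟩ := hp
      exact (Finset.mem_filter.1 hx).1
    · intro x _ y _ hxy
      change Disjoint ((A v w).filter fun p => p.1 = x) ((A v w).filter fun p => p.1 = y)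
      rw [Finset.disjoint_left]
      intro p hp hp'
      exact hxy ((Finset.mem_filter.1 hp).2.symm.trans (Finset.mem_filter.1 hp').2)
  -- upper bound
  set Q : Finset (Fin n × Fin n) := univ.filter fun p => p.1 ≠ p.2 ∧ s(p.1, p.2) ∈ N with hQdef
  have hQc : Q.card ≤ 2 * N.card := two_to_one N Q fun p hp => (Finset.mem_filter.1 hp).2.2
  set zs : Fin n × Fin n → Finset (Fin n) := fun p => Z.filter fun v => G.Adj v p.1 ∧ G.Adj v p.2
    with hzs'
  have hzc : ∀ p ∈ Q, (zs p).card ≤ c := by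
    intro p hp
    have h1 := (hcov p.1 p.2 (Finset.mem_filter.1 hp).2.1).2
    have e2 : ({v | v ∈ Z ∧ G.Adj v p.1 ∧ G.Adj v p.2} : Set (Fin n)) = (zs p : Set (Fin n)) := by
      ext v
      simp [hzs']
    rw [← Set.ncard_coe_finset, ← e2]
    exact h1
  have hup : ∑ v ∈ Z, ∑ w ∈ Z, (A v w).card ≤ c ^ 2 * Q.card := by
    have hAc : ∀ v w, (A v w).card = ∑ p ∈ Q, if v ∈ Z ∧ w ∈ Z then
        (if p.1 ∈ cm v w ∧ p.2 ∈ cm v w then 1 else 0) else
        (if p.1 ∈ cm v w ∧ p.2 ∈ cm v w then 1 else 0) := by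
      intro v w
      simp only [ite_self]
      rw [← Finset.card_filter]
      congr 1
      ext p
      rw [hA, hQdef]
      simp only [Finset.mem_filter, Finset.mem_product, Finset.mem_univ, true_and]
      tauto
    simp only [ite_self] at hAc
    have e1 : ∑ v ∈ Z, ∑ w ∈ Z, (A v w).card =
        ∑ p ∈ Q, ∑ v ∈ Z, ∑ w ∈ Z, (if p.1 ∈ cm v w ∧ p.2 ∈ cm v w then 1 else 0) := by
      simp only [hAc]
      rw [Finset.sum_comm]
      refine Eq.trans (Finset.sum_congr rfl fun v _ => Finset.sum_comm) ?_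
      rw [Finset.sum_comm]
      refine Finset.sum_congr rfl fun p _ => ?_
      rw [Finset.sum_comm]
    rw [e1]
    have e2 : ∀ p ∈ Q, ∑ v ∈ Z, ∑ w ∈ Z, (if p.1 ∈ cm v w ∧ p.2 ∈ cm v w then 1 else 0) ≤
        c ^ 2 := by
      intro p hp
      have h1 : ∑ v ∈ Z, ∑ w ∈ Z, (if p.1 ∈ cm v w ∧ p.2 ∈ cm v w then 1 else 0) =
          (zs p).card * (zs p).card := by
        rw [← Finset.card_product, ← Finset.sum_product', ← Finset.card_filter]
        congr 1
        ext q
        rw [hcm, hzs']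
        simp only [Finset.mem_filter, Finset.mem_product, Finset.mem_inter, mem_nb]
        tauto
      rw [h1, pow_two]
      exact Nat.mul_le_mul (hzc p hp) (hzc p hp)
    refine (Finset.sum_le_sum e2).trans ?_
    rw [Finset.sum_const, smul_eq_mul, mul_comm]
  calc (t - 2) * ∑ v ∈ Z, ∑ w ∈ Z, bad G f v w = ∑ v ∈ Z, ∑ w ∈ Z, (t - 2) * bad G f v w := by
        rw [Finset.mul_sum]
        exact Finset.sum_congr rfl fun v _ => Finset.mul_sum _ _ _
    _ ≤ ∑ v ∈ Z, ∑ w ∈ Z, (A v w).card :=
        Finset.sum_le_sum fun v hv => Finset.sum_le_sum fun w hw => hlow v hv w hw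
    _ ≤ c ^ 2 * Q.card := hup
    _ ≤ c ^ 2 * (2 * (2 * Dm)) :=
        Nat.mul_le_mul_left _ (hQc.trans (Nat.mul_le_mul_left _ hNcard))
    _ = 4 * c ^ 2 * Dm := by ring

end Pool.Agent.K1H77.SQ
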