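import Pool.Agent.K1H35.SH.Stm2
import Pool.Agent.K1H35.SH.Fin

/-! Pieces NI and BTR of the project SQ (nice pairs, bad triples). -/

set_option autoImplicit false

namespace Pool.Agent.K1H77.SQ

open Finset Pool.Agent.K1H35.SH

theorem t_NI : S_NI := by
  classical
  intro α ι _ P I dom F hdom hF hcov
  set mer : α → Prop := fun e =>
    ∃ i ∈ I, ∃ j ∈ I, ∃ e' ∈ dom j, e ∈ dom i ∧ e' ≠ e ∧ F i e = F j e' with hmer
  set nice : α → Prop := fun e => ∀ i ∈ I, ∀ j ∈ I, e ∈ dom i → e ∈ dom j → F i e = F j e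
    with hnice
  have e1 : {e | e ∈ P ∧ ¬ nice e} = ((P.filter fun e => ¬ nice e : Finset α) : Set α) := by
    ext e; simp
  have e2 : {e | e ∈ P ∧ mer e} = ((P.filter mer : Finset α) : Set α) := by
    ext e; simp
  change ({e | e ∈ P ∧ ¬ nice e} : Set α).ncard ≤ 2 * ({e | e ∈ P ∧ mer e} : Set α).ncard
  rw [e1, e2, Set.ncard_coe_finset, Set.ncard_coe_finset]
  set P' : Finset α := P.filter fun e => ¬ mer e with hP'
  set im : α → Finset α := fun e => (I.filter fun i => e ∈ dom i).image fun i => F i e with him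
  have hdisj : ∀ e ∈ P', ∀ e' ∈ P', e ≠ e' → Disjoint (im e) (im e') := by
    intro e he e' he' hne
    rw [Finset.disjoint_left]
    intro x hx hx'
    rw [him, Finset.mem_image] at hx hx'
    obtain ⟨i, hi, rfl⟩ := hx
    obtain ⟨j, hj, hij⟩ := hx'
    rw [Finset.mem_filter] at hi hj
    exact (Finset.mem_filter.1 he).2 ⟨i, hi.1, j, hj.1, e', hj.2, hi.2, hne.symm, hij.symm⟩
  have hsum : ∑ e ∈ P', (im e).card ≤ P.card := by
    rw [← Finset.card_biUnion hdisj]
    apply Finset.card_le_card
    intro x hx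
    rw [Finset.mem_biUnion] at hx
    obtain ⟨e, _, hx⟩ := hx
    rw [him, Finset.mem_image] at hx
    obtain ⟨i, hi, rfl⟩ := hx
    rw [Finset.mem_filter] at hi
    exact hF i hi.1 e hi.2
  have hone : ∀ e ∈ P', 1 + (if nice e then 0 else 1) ≤ (im e).card := by
    intro e he
    have heP := (Finset.mem_filter.1 he).1
    obtain ⟨i, hi, hei⟩ := hcov e heP
    by_cases hn : nice e
    · rw [if_pos hn, add_zero, Nat.one_le_iff_ne_zero, Ne, Finset.card_eq_zero]
      intro h0
      have : F i e ∈ im e := Finset.mem_image.2 ⟨i, Finset.mem_filter.2 ⟨hi, hei⟩, rfl⟩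
      rw [h0] at this
      simp at this
    · rw [if_neg hn]
      have hn' := hn
      rw [hnice] at hn'
      push Not at hn'
      obtain ⟨i1, hi1, j1, hj1, h1, h2, h3⟩ := hn'
      have h4 : ({F i1 e, F j1 e} : Finset α) ⊆ im e := by
        intro x hx
        rw [Finset.mem_insert, Finset.mem_singleton] at hx
        rcases hx with rfl | rfl
        · exact Finset.mem_image.2 ⟨i1, Finset.mem_filter.2 ⟨hi1, h1⟩, rfl⟩
        · exact Finset.mem_image.2 ⟨j1, Finset.mem_filter.2 ⟨hj1, h2⟩, rfl⟩
      have h5 := Finset.card_le_card h4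
      rw [Finset.card_pair h3] at h5
      exact h5
  have hA : (P'.filter fun e => ¬ nice e).card + P'.card ≤ P.card := by
    refine le_trans ?_ hsum
    refine le_trans ?_ (Finset.sum_le_sum hone)
    rw [Finset.sum_add_distrib, Finset.sum_const, smul_eq_mul, mul_one, Finset.card_filter,
      add_comm]
    refine Nat.add_le_add_left ?_ _
    refine Finset.sum_le_sum fun e _ => ?_
    by_cases hn : nice e <;> simp [hn]
  have hP : (P.filter mer).card + P'.card = P.card :=
    Finset.card_filter_add_card_filter_not (s := P) mer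
  have hsub : (P.filter fun e => ¬ nice e) ⊆ P.filter mer ∪ P'.filter fun e => ¬ nice e := by
    intro e he
    rw [Finset.mem_filter] at he
    rw [Finset.mem_union, Finset.mem_filter, Finset.mem_filter, hP', Finset.mem_filter]
    by_cases hm : mer e
    · exact Or.inl ⟨he.1, hm⟩
    · exact Or.inr ⟨⟨he.1, hm⟩, he.2⟩
  have h1 := Finset.card_le_card hsub
  have h2 := Finset.card_union_le (P.filter mer) (P'.filter fun e => ¬ nice e)
  omega

end Pool.Agent.K1H77.SQ
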